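import Pool.Agent.W482.MR.Run
set_option autoImplicit false

/-!
# The round robin rule is quadratic on combed objective functions
-/

namespace Pool.Agent.W482.MR

open Finset Pool.Agent.H454R3

variable {n : ℕ}

/-- the controller of a rule with memory: the first state is `q₀` and the state `q` becomes
`nx q S` when the set of improving directions is `S` -/
def memory {Q : Type} (nx : Q → Finset (Fin n) → Q) (q₀ : Q)
    (h : List ((Fin n → Bool) × Finset (Fin n))) (_ : Fin n → Bool) : Q :=
  h.foldl (fun q p => nx q p.2) q₀

/-- a rule with memory can be started after its first step -/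
lemma run_cons {Q : Type} (r : Q → Finset (Fin n) → Fin n) (nx : Q → Finset (Fin n) → Q)
    (f : (Fin n → Bool) → ℕ) (x : Fin n → Bool) (q : Q) (hne : (improving f x).Nonempty)
    (L : ℕ) (v : ℕ → Fin n → Bool)
    (h : IsRun r (memory nx (nx q (improving f x))) f (flip x (r q (improving f x))) L v) :
    IsRun r (memory nx q) f x (L + 1) (fun k => Nat.casesOn k x v) := by
  obtain ⟨h0, h1, h2⟩ := h
  refine ⟨rfl, ?_, h2⟩
  intro k hk
  cases k with
  | zero => exact ⟨hne, h0⟩
  | succ k =>
    obtain ⟨h3, h4⟩ := h1 k (by omega)
    refine ⟨h3, ?_⟩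
    have h5 : memory nx q (past f (fun k => Nat.casesOn k x v) (k + 1)) (v k) =
        memory nx (nx q (improving f x)) (past f v k) (v k) := by
      unfold memory past
      rw [List.range_succ_eq_map, List.map_cons, List.foldl_cons, List.map_map]
      rfl
    show v (k + 1) = flip (v k) (r (memory nx q (past f (fun k => Nat.casesOn k x v) (k + 1))
      (v k)) (improving f (v k)))
    rw [h5]
    exact h4

/-- the number of directions strictly between `q` and `i` in the cyclic order -/
def cyc (q i : Fin n) : ℕ := if i ≤ q then i.1 + n - q.1 - 1 else i.1 - q.1 - 1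

lemma cyc_lt (q i : Fin n) : cyc q i < n := by
  have h1 := q.2
  have h2 := i.2
  unfold cyc
  split_ifs with h
  · have : i.1 ≤ q.1 := h
    omega
  · omega

lemma cyc_inj {q i j : Fin n} (h : cyc q i = cyc q j) : i = j := by
  have h1 := q.2
  have h2 := i.2
  have h3 := j.2
  unfold cyc at h
  apply Fin.ext
  split_ifs at h with h4 h5 h5
  · have : i.1 ≤ q.1 := h4
    have : j.1 ≤ q.1 := h5
    omega
  · have : i.1 ≤ q.1 := h4
    have : ¬ j.1 ≤ q.1 := h5
    omega
  · have : ¬ i.1 ≤ q.1 := h4
    have : j.1 ≤ q.1 := h5
    omega
  · have : ¬ i.1 ≤ q.1 := h4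
    have : ¬ j.1 ≤ q.1 := h5
    omega

lemma cyc_next {q i j : Fin n} (h : cyc q j < cyc q i) : cyc j i < cyc q i := by
  have h1 := q.2
  have h2 := i.2
  have h3 := j.2
  unfold cyc at h ⊢
  simp only [Fin.le_def] at h ⊢
  split_ifs at h ⊢ <;> omega

/-- the round robin rule: the first improving direction after `q` in the cyclic order -/
noncomputable def robin (q : Fin n) (S : Finset (Fin n)) : Fin n :=
  open Classical in if h : S.Nonempty then (exists_min_image S (cyc q) h).choose else q

lemma robin_spec (q : Fin n) (S : Finset (Fin n)) (h : S.Nonempty) :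
    robin q S ∈ S ∧ ∀ j ∈ S, cyc q (robin q S) ≤ cyc q j := by
  unfold robin
  rw [dif_pos h]
  exact (exists_min_image S (cyc q) h).choose_spec

/-- **Round robin is quadratic.** -/
theorem robin_fast (f : (Fin n → Bool) → ℕ) (hf : Combed f) (U : Finset (Fin n))
    (x : Fin n → Bool)
    (hU : ∀ y : Fin n → Bool, (∀ j, j ∉ U → y j = x j) → improving f y ⊆ U) (q : Fin n) :
    ∀ y : Fin n → Bool, (∀ j, j ∉ U → y j = x j) → ∃ (L : ℕ) (v : ℕ → Fin n → Bool),
      L ≤ n * U.card ∧ IsRun robin (memory robin q) f y L v := by
  induction hN : U.card generalizing U x q with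
  | zero =>
    rw [card_eq_zero] at hN
    subst hN
    intro y hy
    have h1 : improving f y = ∅ := subset_empty.1 (hU y hy)
    exact ⟨0, fun _ => y, by simp, rfl, by simp, h1⟩
  | succ m ih =>
    have hne : U.Nonempty := by rw [← card_pos]; omega
    obtain ⟨i, hi, b, hb⟩ := hf U x hne
    -- the good side
    have good : ∀ y : Fin n → Bool, (∀ j, j ∉ U → y j = x j) → y i = (!b) → ∀ q : Fin n,
        ∃ (L : ℕ) (v : ℕ → Fin n → Bool),
          L ≤ n * m ∧ IsRun robin (memory robin q) f y L v := by
      intro y hy hyi q
      refine ih (U.erase i) (Function.update x i (!b)) ?_ q (by rw [card_erase_of_mem hi]; omega)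
        y ?_
      · intro z hz
        have hz' : ∀ j, j ∉ U → z j = x j := by
          intro j hj
          have hji : j ≠ i := fun h => hj (h ▸ hi)
          rw [hz j fun h => hj (mem_of_mem_erase h), Function.update_of_ne hji]
        intro j hj
        refine mem_erase.2 ⟨?_, hU z hz' hj⟩
        rintro rfl
        rw [hb z hz', hz j (notMem_erase j U)] at hj
        simp at hj
      · intro j hj
        by_cases hji : j = i
        · subst hji
          rw [hyi]; simp
        · rw [Function.update_of_ne hji]
          exact hy j fun h => hj (mem_erase.2 ⟨hji, h⟩)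
    -- the bad side
    have bad : ∀ d : ℕ, ∀ y : Fin n → Bool, (∀ j, j ∉ U → y j = x j) → y i = b → ∀ q : Fin n,
        cyc q i ≤ d → ∃ (L : ℕ) (v : ℕ → Fin n → Bool),
          L ≤ d + 1 + n * m ∧ IsRun robin (memory robin q) f y L v := by
      intro d
      induction d with
      | zero =>
        intro y hy hyi q hq
        have hi2 : i ∈ improving f y := (hb y hy).2 hyi
        have hs : (improving f y).Nonempty := ⟨i, hi2⟩
        obtain ⟨h1, h2⟩ := robin_spec q _ hs
        have h3 : robin q (improving f y) = i := cyc_inj (q := q) (by have := h2 i hi2; omega)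
        obtain ⟨L, v, hL, hv⟩ := good (flip y i) (fun j hj => by
          have hji : j ≠ i := fun h => hj (h ▸ hi)
          rw [flip_ne _ hji, hy j hj]) (by rw [flip_self, hyi]) i
        refine ⟨L + 1, _, by omega, run_cons robin robin f y q hs L v ?_⟩
        rw [h3]
        exact hv
      | succ d ihd =>
        intro y hy hyi q hq
        have hi2 : i ∈ improving f y := (hb y hy).2 hyi
        have hs : (improving f y).Nonempty := ⟨i, hi2⟩
        obtain ⟨h1, h2⟩ := robin_spec q _ hs
        by_cases h3 : robin q (improving f y) = i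
        · obtain ⟨L, v, hL, hv⟩ := good (flip y i) (fun j hj => by
            have hji : j ≠ i := fun h => hj (h ▸ hi)
            rw [flip_ne _ hji, hy j hj]) (by rw [flip_self, hyi]) i
          refine ⟨L + 1, _, by omega, run_cons robin robin f y q hs L v ?_⟩
          rw [h3]
          exact hv
        · have h4 : cyc q (robin q (improving f y)) < cyc q i :=
            lt_of_le_of_ne (h2 i hi2) fun h => h3 (cyc_inj h)
          have h5 := cyc_next h4
          have h6 := hU y hy h1
          obtain ⟨L, v, hL, hv⟩ := ihd (flip y (robin q (improving f y))) (fun j hj => by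
            have hji : j ≠ robin q (improving f y) := fun h => hj (h ▸ h6)
            rw [flip_ne _ hji, hy j hj]) (by rw [flip_ne _ fun h => h3 h.symm, hyi])
            (robin q (improving f y)) (by omega)
          exact ⟨L + 1, _, by omega, run_cons robin robin f y q hs L v hv⟩
    intro y hy
    by_cases hyi : y i = b
    · obtain ⟨L, v, hL, hv⟩ := bad (n - 1) y hy hyi q (by have := cyc_lt q i; omega)
      refine ⟨L, v, ?_, hv⟩
      have := cyc_lt q i
      have h1 : n * (m + 1) = n * m + n := by ring
      omega
    · obtain ⟨L, v, hL, hv⟩ := good y hy (by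
        revert hyi
        cases y i <;> cases b <;> simp) q
      exact ⟨L, v, hL.trans (Nat.mul_le_mul_left n (by omega)), hv⟩

end Pool.Agent.W482.MR
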