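import Pool.Agent.W482.MR.Walk
set_option autoImplicit false

/-!
# Pivot rules with memory are exponential on abstract objective functions
-/

namespace Pool.Agent.W482.MR

open Finset Pool.Agent.H454R3

variable {n : ℕ}

/-- what has been seen before step `k` on the path `v`: the vertices and their sets of improving
directions -/
def past (f : (Fin n → Bool) → ℕ) (v : ℕ → Fin n → Bool) (k : ℕ) :
    List ((Fin n → Bool) × Finset (Fin n)) :=
  (List.range k).map fun j => (v j, improving f (v j))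

/-- `v 0, …, v L` is the path from the vertex `x₀` to a vertex without improving direction of the
following rule on the objective function `f`: at the vertex `v k` the controller `c` looks at
the vertices `v 0, …, v k` and at the sets of improving directions of `v 0, …, v (k - 1)` and
picks one of the choice functions `r q`, and then the rule flips the direction which `r q` chooses
from the set of improving directions at `v k`. -/
def IsRun {Q : Type} (r : Q → Finset (Fin n) → Fin n)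
    (c : List ((Fin n → Bool) × Finset (Fin n)) → (Fin n → Bool) → Q)
    (f : (Fin n → Bool) → ℕ) (x₀ : Fin n → Bool) (L : ℕ) (v : ℕ → Fin n → Bool) : Prop :=
  v 0 = x₀ ∧
  (∀ k < L, (improving f (v k)).Nonempty ∧
    v (k + 1) = flip (v k) (r (c (past f v k) (v k)) (improving f (v k)))) ∧
  improving f (v L) = ∅

/-- the step of the walk -/
def wstep {Q : Type} (r : Q → Finset (Fin n) → Fin n) (nx : Q → Finset (Fin n) → Q)
    (t : Finset (Fin n)) (τ : Fin n → ℕ) (St : Q → Finset (Fin n) → Finset (Fin n))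
    (w : (Fin n → Bool) × Finset (Fin n) × Q) : (Fin n → Bool) × Finset (Fin n) × Q :=
  (flip w.1 (r w.2.2 (St w.2.2 w.2.1)),
    (w.2.1.filter fun z => τ (r w.2.2 (St w.2.2 w.2.1)) < τ z) ∪
      (t.filter fun z => τ z < τ (r w.2.2 (St w.2.2 w.2.1))),
    nx w.2.2 (St w.2.2 w.2.1))

/-- the weight goes down -/
lemma weight_lt (t : Finset (Fin n)) (τ : Fin n → ℕ)
    (inj : ∀ x ∈ t, ∀ z ∈ t, τ x = τ z → x = z) (D : Finset (Fin n)) (y : Fin n)
    (hy : y ∈ D) :
    ∑ z ∈ (D.filter fun z => τ y < τ z) ∪ (t.filter fun z => τ z < τ y), 2 ^ τ z <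
      ∑ z ∈ D, 2 ^ τ z := by
  have h1 : ∑ z ∈ t.filter (fun z => τ z < τ y), 2 ^ τ z < 2 ^ τ y := by
    have h2 : ∑ z ∈ t.filter (fun z => τ z < τ y), 2 ^ τ z =
        ∑ k ∈ (t.filter (fun z => τ z < τ y)).image τ, 2 ^ k := by
      rw [sum_image]
      intro x hx z hz hxz
      exact inj x (mem_filter.1 hx).1 z (mem_filter.1 hz).1 hxz
    rw [h2]
    apply Nat.geomSum_lt le_rfl
    intro k hk
    obtain ⟨z, hz, rfl⟩ := mem_image.1 hk
    exact (mem_filter.1 hz).2
  have h2 : ∑ z ∈ D.filter (fun z => τ y < τ z), 2 ^ τ z + 2 ^ τ y ≤ ∑ z ∈ D, 2 ^ τ z := by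
    have h3 : y ∉ D.filter (fun z => τ y < τ z) := fun h => lt_irrefl _ (mem_filter.1 h).2
    rw [add_comm, ← sum_insert (f := fun z => 2 ^ τ z) h3]
    apply sum_le_sum_of_subset
    intro z hz
    rcases mem_insert.1 hz with rfl | hz
    · exact hy
    · exact (mem_filter.1 hz).1
  have h3 : ∑ z ∈ (D.filter fun z => τ y < τ z) ∪ (t.filter fun z => τ z < τ y), 2 ^ τ z ≤
      ∑ z ∈ D.filter (fun z => τ y < τ z), 2 ^ τ z +
        ∑ z ∈ t.filter (fun z => τ z < τ y), 2 ^ τ z := by
    rw [← sum_union_inter]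
    exact Nat.le_add_right _ _
  omega

theorem exists_walk {Q : Type} (r : Q → Finset (Fin n) → Fin n) (nx : Q → Finset (Fin n) → Q)
    (t : Finset (Fin n)) (τ : Fin n → ℕ) (St : Q → Finset (Fin n) → Finset (Fin n))
    (inj : ∀ x ∈ t, ∀ z ∈ t, τ x = τ z → x = z)
    (hSt : ∀ q, ∀ D : Finset (Fin n), D ⊆ t → D.Nonempty → r q (St q D) ∈ D)
    (x₀ : Fin n → Bool) (q₀ : Q) :
    ∃ (L : ℕ) (v : ℕ → Fin n → Bool) (D : ℕ → Finset (Fin n)) (s : ℕ → Q),
      Walk t τ v D (fun k => r (s k) (St (s k) (D k))) L ∧ v 0 = x₀ ∧ s 0 = q₀ ∧ D 0 = t ∧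
      D L = ∅ ∧ (∀ k < L, (D k).Nonempty) ∧ ∀ k < L, s (k + 1) = nx (s k) (St (s k) (D k)) := by
  classical
  set g := wstep r nx t τ St with hg
  set w : ℕ → (Fin n → Bool) × Finset (Fin n) × Q := fun k => g^[k] (x₀, t, q₀) with hw
  have hw1 : ∀ k, w (k + 1) = g (w k) := fun k => Function.iterate_succ_apply' g k _
  have hsub : ∀ k, (∀ j < k, (w j).2.1.Nonempty) → (w k).2.1 ⊆ t := by
    intro k
    induction k with
    | zero => exact fun _ => subset_refl t
    | succ k ih =>
      intro h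
      rw [hw1]
      refine union_subset ?_ (filter_subset _ _)
      exact (filter_subset _ _).trans (ih fun j hj => h j (by omega))
  have hex : ∃ k, (w k).2.1 = ∅ := by
    by_contra hcon
    push Not at hcon
    have hne : ∀ k, (w k).2.1.Nonempty := hcon
    have hdec : ∀ k, ∑ z ∈ (w (k + 1)).2.1, 2 ^ τ z < ∑ z ∈ (w k).2.1, 2 ^ τ z := by
      intro k
      rw [hw1]
      exact weight_lt t τ inj _ _ (hSt _ _ (hsub k fun j _ => hne j) (hne k))
    have hb : ∀ k, ∑ z ∈ (w k).2.1, 2 ^ τ z + k ≤ ∑ z ∈ (w 0).2.1, 2 ^ τ z := by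
      intro k
      induction k with
      | zero => simp
      | succ k ih =>
        have := hdec k
        omega
    have := hb (∑ z ∈ (w 0).2.1, 2 ^ τ z + 1)
    omega
  have hL := Nat.find_spec hex
  have hmin : ∀ k < Nat.find hex, (w k).2.1.Nonempty := fun k hk =>
    nonempty_iff_ne_empty.2 (Nat.find_min hex hk)
  set L := Nat.find hex with hLdef
  refine ⟨L, fun k => (w k).1, fun k => (w k).2.1, fun k => (w k).2.2, ?_, rfl, rfl, rfl, hL,
    hmin, fun k _ => ?_⟩
  · refine ⟨fun k hk => hsub k fun j hj => hmin j (by omega), fun k hk => ?_, fun k hk => ?_,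
      fun k hk z => ?_, inj⟩
    · exact hSt _ _ (hsub k fun j hj => hmin j (by omega)) (hmin k hk)
    · show (w (k + 1)).1 = _
      rw [hw1]
      rfl
    · show z ∈ (w (k + 1)).2.1 ↔ _
      rw [hw1]
      show z ∈ _ ∪ _ ↔ _
      rw [mem_union, mem_filter, mem_filter]
  · show (w (k + 1)).2.2 = _
    rw [hw1]
    rfl

/-- **Switching between few memoryless rules is exponential.** -/
theorem exists_slow {Q : Type} [Fintype Q] (hn : 2 ≤ n) {m : ℕ} (hm : 1 ≤ m)
    (hQ : Fintype.card Q ≤ m)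
    (r : Q → Finset (Fin n) → Fin n) (hr : ∀ q, ∀ S : Finset (Fin n), S.Nonempty → r q S ∈ S)
    (c : List ((Fin n → Bool) × Finset (Fin n)) → (Fin n → Bool) → Q) (x₀ : Fin n → Bool) :
    ∃ f : (Fin n → Bool) → ℕ, Function.Injective f ∧ Combed f ∧
      ∃ (L : ℕ) (v : ℕ → Fin n → Bool), IsRun r c f x₀ L v ∧
        2 ^ (n / (8 * m ^ 2 * Nat.clog 2 n)) ≤ L + 1 := by
  classical
  have q₀ : Q := c [] x₀
  have hk : 1 ≤ Nat.clog 2 n := Nat.clog_pos (by norm_num) hn
  obtain ⟨t, ρ, hρ, hcard, hst⟩ := steering_all r hr hk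
    (by rw [Fintype.card_fin]; exact Nat.le_pow_clog (by norm_num) n) hm hQ
  rw [Fintype.card_fin] at hcard
  obtain ⟨b, R, hR, hb⟩ := exists_blocks hQ q₀ ρ t
  -- the completion
  have hSt : ∀ q, ∀ D : Finset (Fin n), ∃ S : Finset (Fin n), D ⊆ t → D.Nonempty →
      S ∩ t = D ∧ r q S ∈ D ∧ ∀ y ∈ D, ρ q (r q S) ≤ ρ q y := by
    intro q D
    by_cases h : D ⊆ t ∧ D.Nonempty
    · obtain ⟨S, hS⟩ := hst q D h.1 h.2
      exact ⟨S, fun _ _ => hS⟩
    · exact ⟨∅, fun h1 h2 => absurd ⟨h1, h2⟩ h⟩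
  choose St hSt using hSt
  set τ : Fin n → ℕ := fun i => b i * n + i with hτ
  have hinj : ∀ x z : Fin n, τ x = τ z → x = z := by
    intro x z h
    rw [hτ] at h
    simp only at h
    have h1 := x.2
    have h2 := z.2
    have h3 : (b x * n + x) % n = (b z * n + z) % n := by rw [h]
    rw [Nat.mul_add_mod_of_lt h1, Nat.mul_add_mod_of_lt h2] at h3
    exact Fin.ext h3
  have hτb : ∀ x z : Fin n, b x < b z → τ x < τ z := by
    intro x z h
    rw [hτ]
    simp only
    have h1 := x.2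
    have h2 : (b x + 1) * n ≤ b z * n := Nat.mul_le_mul_right n h
    have h3 : (b x + 1) * n = b x * n + n := by ring
    omega
  -- states: what has been seen, and the current vertex
  obtain ⟨L, v, D, s, hW, h0, hs0, hD0, hDL, hne, hs⟩ := exists_walk
    (Q := List ((Fin n → Bool) × Finset (Fin n)) × (Fin n → Bool))
    (fun w S => r (c w.1 w.2) S)
    (fun w S => (w.1 ++ [(w.2, S)], flip w.2 (r (c w.1 w.2) S))) t τ
    (fun w D => St (c w.1 w.2) D)
    (fun x _ z _ => hinj x z) (fun w D h1 h2 => (hSt (c w.1 w.2) D h1 h2).2.1) x₀ ([], x₀)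
  set S : ℕ → Finset (Fin n) := fun k =>
    if k < L then St (c (s k).1 (s k).2) (D k) else ∅ with hS
  have hSD : ∀ k ≤ L, S k ∩ t = D k := by
    intro k hk
    rw [hS]
    simp only
    by_cases h1 : k < L
    · rw [if_pos h1]
      exact (hSt _ _ (hW.sub k hk) (hne k h1)).1
    · rw [if_neg h1, show k = L by omega, hDL, empty_inter]
  obtain ⟨f, hf1, hf2, hf3⟩ := hW.exists_fun S hSD
  have himp : ∀ k < L, improving f (v k) = St (c (s k).1 (s k).2) (D k) := by
    intro k hk
    rw [hf3 k hk.le, hS]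
    simp only
    rw [if_pos hk]
  have hstate : ∀ k ≤ L, s k = (past f v k, v k) := by
    intro k
    induction k with
    | zero =>
      intro _
      rw [hs0, h0]
      rfl
    | succ k ih =>
      intro hk
      have hk' : k < L := by omega
      have h1 := hs k hk'
      have h2 := hW.step k hk'
      have h3 := himp k hk'
      rw [h1, h2, ← h3, ih hk'.le]
      simp only [past, List.range_succ, List.map_append, List.map_cons, List.map_nil]
  refine ⟨f, hf1, hf2, L, v, ⟨h0, fun k hk => ⟨?_, ?_⟩, ?_⟩, ?_⟩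
  · rw [himp k hk]
    obtain ⟨z, hz⟩ := hne k hk
    rw [← (hSt (c (s k).1 (s k).2) _ (hW.sub k hk.le) (hne k hk)).1] at hz
    exact ⟨z, (mem_inter.1 hz).1⟩
  · have h2 := hW.step k hk
    have h3 := himp k hk
    rw [h2, ← h3, hstate k hk.le]
  · rw [hf3 L le_rfl, hS]
    simp
  · -- the length
    have h1 := hW.long hDL b R (fun x _ z _ => hτb x z)
      (fun j hj => by
        obtain ⟨a, ha, hab, _⟩ := hb j hj q₀
        exact ⟨a, ha, hab⟩)
      (by
        intro j hj k hk hall hle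
        obtain ⟨a, ha, hab, hmin⟩ := hb j hj (c (s k).1 (s k).2)
        obtain ⟨_, h3, h4⟩ := hSt (c (s k).1 (s k).2) (D k) (hW.sub k hk.le) (hne k hk)
        have h5 := hmin _ (hW.sub k hk.le h3) hle
        have h6 := h4 a (hall a ha hab)
        have h7 := hρ (c (s k).1 (s k).2) _ _ (le_antisymm h5 h6)
        show b (r (c (s k).1 (s k).2) (St (c (s k).1 (s k).2) (D k))) = j
        rw [← h7, hab])
      R le_rfl 0 L (Nat.zero_le _) le_rfl (fun z hz _ => by rw [hD0]; exact hz) (Or.inl rfl)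
    refine le_trans (Nat.pow_le_pow_right (by norm_num) ?_) h1
    have hm' : (1 : ℝ) ≤ m := by exact_mod_cast hm
    have hk' : (1 : ℝ) ≤ Nat.clog 2 n := by exact_mod_cast hk
    have h2 : (n : ℝ) ≤ (t.card : ℝ) * (8 * m * Nat.clog 2 n) := by
      rwa [div_le_iff₀ (by positivity)] at hcard
    have h3 : n ≤ t.card * (8 * m * Nat.clog 2 n) := by exact_mod_cast h2
    have h4 : n ≤ R * (8 * m ^ 2 * Nat.clog 2 n) := by
      calc n ≤ t.card * (8 * m * Nat.clog 2 n) := h3
        _ ≤ (m * R) * (8 * m * Nat.clog 2 n) := Nat.mul_le_mul_right _ hR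
        _ = R * (8 * m ^ 2 * Nat.clog 2 n) := by ring
    exact Nat.div_le_of_le_mul (by rw [mul_comm]; exact h4)

end Pool.Agent.W482.MR
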