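import Pool.Agent.H454R3.Select
set_option autoImplicit false

/-!
# Steering all the states of a pivot rule with memory at the same time
-/

namespace Pool.Agent.W482.MR

open Finset Pool.Agent.H454R3

variable {α : Type*} [DecidableEq α]

set_option linter.unusedSectionVars false

lemma Ex_inter (p : ℝ) (N A : Finset α) (f : Finset α → ℝ) :
    Ex p N (fun S => f (S ∩ A)) = Ex p (N ∩ A) f := by
  induction N using Finset.induction_on generalizing f with
  | empty => simp [Ex_empty]
  | insert x N hx ih =>
    rw [Ex_insert hx]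
    by_cases hxA : x ∈ A
    · have h1 : (insert x N) ∩ A = insert x (N ∩ A) := insert_inter_of_mem hxA
      rw [h1, Ex_insert fun h => hx (mem_inter.1 h).1, ih]
      congr 2
      rw [← ih fun S => f (insert x S)]
      refine Ex_congr fun S _ => ?_
      rw [insert_inter_of_mem hxA]
    · have h1 : (insert x N) ∩ A = N ∩ A := insert_inter_of_notMem hxA
      rw [h1, ih]
      have h2 : Ex p N (fun S => f (insert x S ∩ A)) = Ex p (N ∩ A) f := by
        rw [← ih]
        refine Ex_congr fun S _ => ?_
        rw [insert_inter_of_notMem hxA]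
      rw [h2]
      ring

lemma Pr_inter (p : ℝ) (N A : Finset α) (P : Finset α → Prop) :
    Pr p N (fun S => P (S ∩ A)) = Pr p (N ∩ A) P := by
  classical
  unfold Pr
  exact Ex_inter p N A fun S => if P S then 1 else 0

/-- union bound -/
lemma Pr_forall {Q : Type*} (p : ℝ) (h0 : 0 ≤ p) (h1 : p ≤ 1) (N : Finset α)
    (T : Finset Q) (P : Q → Finset α → Prop) (e : ℝ) (he : ∀ q ∈ T, 1 - e ≤ Pr p N (P q)) :
    1 - T.card * e ≤ Pr p N (fun S => ∀ q ∈ T, P q S) := by
  classical
  induction T using Finset.induction_on with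
  | empty =>
    simp only [card_empty, CharP.cast_eq_zero, zero_mul, sub_zero, notMem_empty, IsEmpty.forall_iff,
      implies_true]
    unfold Pr
    simp only [if_true]
    rw [Ex_const]
  | insert q T hq ih =>
    have h2 := ih fun q hq => he q (mem_insert_of_mem hq)
    have h3 := Pr_or_add_and p N (P q) (fun S => ∀ q ∈ T, P q S)
    have h4 := Pr_le_one h0 h1 N (fun S => P q S ∨ ∀ q ∈ T, P q S)
    have h5 := he q (mem_insert_self q T)
    have h6 : Pr p N (fun S => P q S ∧ ∀ q ∈ T, P q S) ≤
        Pr p N (fun S => ∀ q' ∈ insert q T, P q' S) := by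
      refine Pr_mono h0 h1 fun S _ h q' hq' => ?_
      rcases mem_insert.1 hq' with h7 | h7
      · rw [h7]; exact h.1
      · exact h.2 q' h7
    rw [card_insert_of_notMem hq]
    push_cast
    linarith

/-- A dense family shatters almost all very sparse random sets. -/
theorem shat_many {k m : ℕ} (hk : 1 ≤ k) (hm : 1 ≤ m) (N : Finset α)
    (F : Finset α → Prop) (hF : (1 / 2 : ℝ) ^ k ≤ Pr (1 / 2) N F) :
    1 - 1 / (2 * m) ≤ Pr (1 / 2 / (2 * m * k : ℕ)) N (Shat N F) := by
  have h2 := (hF.trans (pajor (by norm_num) le_rfl N F)).trans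
    (Pr_pow_ge (p := 1 / 2) (by norm_num) (by norm_num) (k := 2 * m * k)
      (by nlinarith [Nat.mul_le_mul hm hk]) N (Shat N F)
      fun A B h hB => hB.mono h)
  by_contra h
  push Not at h
  set P := Pr (1 / 2 / (2 * m * k : ℕ)) N (Shat N F) with hP
  have hm' : (1 : ℝ) ≤ m := by exact_mod_cast hm
  have hc : (1 : ℝ) ≤ (2 * m * k : ℕ) := by
    exact_mod_cast (by nlinarith [Nat.mul_le_mul hm hk] : 1 ≤ 2 * m * k)
  have hP0 : 0 ≤ P := by
    refine Pr_nonneg (by positivity) ?_ N _
    rw [div_le_one (by linarith)]
    linarith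
  have h3 : P ^ (2 * m) < 1 / 2 := by
    have h4 : P < Real.exp (-(1 / (2 * m))) := by
      have := Real.add_one_le_exp (-(1 / (2 * (m : ℝ))))
      linarith
    calc P ^ (2 * m) ≤ Real.exp (-(1 / (2 * m))) ^ (2 * m) := pow_le_pow_left₀ hP0 h4.le _
      _ = Real.exp (-1) := by
        rw [← Real.exp_nat_mul]
        congr 1
        push_cast
        field_simp
      _ < 1 / 2 := by
        have := Real.exp_neg_one_lt_d9
        linarith
  have h5 : P ^ (2 * m * k) < (1 / 2 : ℝ) ^ k := by
    rw [pow_mul]
    exact pow_lt_pow_left₀ h3 (by positivity) (by omega)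
  linarith

/-- an order in which every element is popular among the sets of later elements -/
lemma exists_rank (r : Finset α → α) (hr : ∀ S : Finset α, S.Nonempty → r S ∈ S) (k : ℕ)
    (N : Finset α) (hN : N.card ≤ 2 ^ k) : ∃ ρ : α → ℕ, (∀ x ∈ N, ∀ y ∈ N, ρ x = ρ y → x = y) ∧
      ∀ x ∈ N, (1 / 2 : ℝ) ^ k ≤ Pr (1 / 2) (N.filter fun y => ρ x < ρ y)
        (fun S => r (insert x S) = x) := by
  induction hn : N.card generalizing N with
  | zero =>
    rw [card_eq_zero] at hn
    subst hn
    exact ⟨fun _ => 0, by simp, by simp⟩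
  | succ n ih =>
    have hne : N.Nonempty := by
      rw [← card_pos]; omega
    obtain ⟨x, hx, h⟩ := exists_popular N hne r hr
    have h1 := card_erase_of_mem hx
    obtain ⟨ρ, hinj, hρ⟩ := ih (N.erase x) (by omega) (by omega)
    refine ⟨fun y => if y = x then 0 else ρ y + 1, ?_, ?_⟩
    · intro y hy z hz hyz
      by_cases h2 : y = x <;> by_cases h3 : z = x
      · rw [h2, h3]
      · simp [h2, h3] at hyz
      · simp [h2, h3] at hyz
      · simp only [h2, h3, if_false, add_left_inj] at hyz
        exact hinj y (mem_erase.2 ⟨h2, hy⟩) z (mem_erase.2 ⟨h3, hz⟩) hyz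
    · intro y hy
      by_cases h2 : y = x
      · subst h2
        have h3 : (N.filter fun z => (if y = y then 0 else ρ y + 1) <
            (if z = y then 0 else ρ z + 1)) = N.erase y := by
          ext z
          simp only [if_true, mem_filter, mem_erase]
          by_cases h4 : z = y
          · simp [h4]
          · simp [h4]
        rw [h3]
        refine le_trans ?_ h
        rw [one_div_pow]
        apply one_div_le_one_div_of_le
        · exact_mod_cast hne.card_pos
        · exact_mod_cast hN
      · have h3 : (N.filter fun z => (if y = x then 0 else ρ y + 1) <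
            (if z = x then 0 else ρ z + 1)) = (N.erase x).filter fun z => ρ y < ρ z := by
          ext z
          simp only [h2, if_false, mem_filter, mem_erase]
          by_cases h4 : z = x
          · simp [h4]
          · simp [h4]
        rw [h3]
        exact hρ y (mem_erase.2 ⟨h2, hy⟩)

lemma Pr_mem_and (p : ℝ) {N : Finset α} {x : α} (hx : x ∈ N) (P : Finset α → Prop) :
    Pr p N (fun S => x ∈ S ∧ P S) = p * Pr p (N.erase x) (fun S => P (insert x S)) := by
  conv_lhs => rw [← insert_erase hx]
  rw [Pr_insert (notMem_erase x N)]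
  have h1 : Pr p (N.erase x) (fun S => x ∈ S ∧ P S) = 0 := by
    unfold Pr
    refine (Ex_congr fun S hS => ?_).trans (Ex_const p (N.erase x) 0)
    rw [if_neg]
    intro h
    exact notMem_erase x N (hS h.1)
  rw [h1]
  simp

/-- **Steering all states.** For every family of `m` choice functions on `n ≤ 2 ^ k` elements
there are a set `t` of at least `n / (8 m k)` elements and orders, one for each choice function,
such that for all choice functions `r q` each nonempty subset `D` of `t` is the trace on `t` of a
set on which `r q` picks the first member of `D` in the order of `q`. -/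
theorem steering_all [Fintype α] {Q : Type*} [Fintype Q] (r : Q → Finset α → α)
    (hr : ∀ q, ∀ S : Finset α, S.Nonempty → r q S ∈ S) {k m : ℕ} (hk : 1 ≤ k)
    (hn : Fintype.card α ≤ 2 ^ k) (hm : 1 ≤ m) (hQ : Fintype.card Q ≤ m) :
    ∃ (t : Finset α) (ρ : Q → α → ℕ), (∀ q x y, ρ q x = ρ q y → x = y) ∧
      (Fintype.card α : ℝ) / (8 * m * k) ≤ t.card ∧
      ∀ q, ∀ D : Finset α, D ⊆ t → D.Nonempty →
        ∃ S : Finset α, S ∩ t = D ∧ r q S ∈ D ∧ ∀ y ∈ D, ρ q (r q S) ≤ ρ q y := by
  classical
  have hρ := fun q => exists_rank (r q) (hr q) k univ (by rw [card_univ]; exact hn)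
  choose ρ hinj hpop using hρ
  have hk' : (1 : ℝ) ≤ k := by exact_mod_cast hk
  have hm' : (1 : ℝ) ≤ m := by exact_mod_cast hm
  set p : ℝ := 1 / 2 / (2 * m * k : ℕ) with hp
  have hc : (1 : ℝ) ≤ (2 * m * k : ℕ) := by
    exact_mod_cast (by nlinarith [Nat.mul_le_mul hm hk] : 1 ≤ 2 * m * k)
  have hp0 : 0 ≤ p := by positivity
  have hp1 : p ≤ 1 := by
    rw [hp, div_le_one (by linarith)]
    linarith
  have hpv : p = 1 / (4 * m * k) := by
    rw [hp]
    push_cast
    field_simp
    norm_num
  set L : Q → α → Finset α := fun q x => univ.filter fun y => ρ q x < ρ q y with hL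
  set F : Q → α → Finset α → Prop := fun q x S => r q (insert x S) = x with hF
  set G : α → Finset α → Prop := fun x M => ∀ q ∈ (univ : Finset Q), Shat (L q x) (F q x) (M ∩ L q x) with hG
  set tt : Finset α → Finset α := fun M => M.filter fun x => G x M with htt
  have hxL : ∀ q x, x ∉ L q x := by
    intro q x h
    rw [hL] at h
    exact lt_irrefl _ (mem_filter.1 h).2
  have hE : (Fintype.card α : ℝ) * (p * (1 / 2)) ≤ Ex p univ (fun M => ((tt M).card : ℝ)) := by
    have e1 : Ex p univ (fun M => ((tt M).card : ℝ)) =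
        ∑ x : α, Pr p univ (fun M => x ∈ M ∧ G x M) := by
      unfold Pr
      rw [← Ex_sum]
      refine Ex_congr fun M _ => ?_
      rw [card_eq_sum_ones, htt]
      push_cast
      rw [sum_filter]
      have e2 : ∀ x ∈ M, (if G x M then (1 : ℝ) else 0) = if x ∈ M ∧ G x M then (1 : ℝ) else 0 := by
        intro x hx
        by_cases h : G x M
        · rw [if_pos h, if_pos ⟨hx, h⟩]
        · rw [if_neg h, if_neg fun h' => h h'.2]
      rw [sum_congr rfl e2]
      refine (sum_subset (subset_univ M) fun x _ hx => if_neg fun h => hx h.1).trans ?_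
      refine sum_congr rfl fun x _ => ?_
      congr 1
    rw [e1]
    have e4 : ∀ x : α, p * (1 / 2) ≤ Pr p univ (fun M => x ∈ M ∧ G x M) := by
      intro x
      rw [Pr_mem_and p (mem_univ x)]
      refine mul_le_mul_of_nonneg_left ?_ hp0
      have e5 : Pr p (univ.erase x) (fun S => G x (insert x S)) =
          Pr p (univ.erase x) (fun S => ∀ q ∈ (univ : Finset Q),
            Shat (L q x) (F q x) (S ∩ L q x)) := by
        unfold Pr
        refine Ex_congr fun S _ => ?_
        have : G x (insert x S) ↔ ∀ q ∈ (univ : Finset Q), Shat (L q x) (F q x) (S ∩ L q x) := by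
          rw [hG]
          refine forall₂_congr fun q _ => ?_
          rw [insert_inter_of_notMem (hxL q x)]
        by_cases h : G x (insert x S)
        · rw [if_pos h, if_pos (this.1 h)]
        · rw [if_neg h, if_neg fun h' => h (this.2 h')]
      rw [e5]
      have e6 := Pr_forall p hp0 hp1 (univ.erase x) (univ : Finset Q)
        (fun q S => Shat (L q x) (F q x) (S ∩ L q x)) (1 / (2 * m)) (by
          intro q _
          rw [Pr_inter]
          have e7 : univ.erase x ∩ L q x = L q x := by
            rw [inter_eq_right]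
            intro y hy
            refine mem_erase.2 ⟨?_, mem_univ y⟩
            rintro rfl
            exact hxL q y hy
          rw [e7]
          exact shat_many hk hm (L q x) (F q x) (hpop q x (mem_univ x)))
      refine le_trans ?_ e6
      rw [card_univ]
      have e8 : (Fintype.card Q : ℝ) * (1 / (2 * m)) ≤ m * (1 / (2 * m)) := by
        gcongr
      have e9 : (m : ℝ) * (1 / (2 * m)) = 1 / 2 := by field_simp
      linarith
    calc (Fintype.card α : ℝ) * (p * (1 / 2)) = ∑ x : α, p * (1 / 2) := by
          rw [sum_const, card_univ, nsmul_eq_mul]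
      _ ≤ _ := sum_le_sum fun x _ => e4 x
  obtain ⟨M, _, hM⟩ := exists_ge_Ex hp0 hp1 univ (fun M => ((tt M).card : ℝ))
  refine ⟨tt M, ρ, fun q x y => hinj q x (mem_univ x) y (mem_univ y), ?_, ?_⟩
  · refine le_trans (le_of_eq ?_) (hE.trans hM)
    rw [hpv]
    field_simp
    ring
  · intro q D hD hne
    obtain ⟨x, hxD, hx⟩ := exists_min_image D (ρ q) hne
    have hxt := hD hxD
    have hxM : x ∈ M ∧ G x M := mem_filter.1 hxt
    have hsh := hxM.2 q (mem_univ q)
    have hsub : D.erase x ⊆ M ∩ L q x := by
      intro y hy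
      have h1 := mem_erase.1 hy
      refine mem_inter.2 ⟨(mem_filter.1 (hD h1.2)).1, ?_⟩
      rw [hL]
      refine mem_filter.2 ⟨mem_univ y, ?_⟩
      refine lt_of_le_of_ne (hx y h1.2) fun h => h1.1 ?_
      exact (hinj q x (mem_univ x) y (mem_univ y) h).symm
    obtain ⟨S, hS, hrS, hSA⟩ := hsh (D.erase x) hsub
    refine ⟨insert x S, ?_, ?_, ?_⟩
    · ext y
      simp only [mem_inter, mem_insert]
      constructor
      · rintro ⟨h1 | h1, h2⟩
        · rw [h1]; exact hxD
        · have h3 : y ∈ S ∩ (M ∩ L q x) :=
            mem_inter.2 ⟨h1, mem_inter.2 ⟨(mem_filter.1 h2).1, hS h1⟩⟩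
          rw [hSA] at h3
          exact mem_of_mem_erase h3
      · intro h1
        refine ⟨?_, hD h1⟩
        by_cases h2 : y = x
        · exact Or.inl h2
        · right
          have h3 : y ∈ D.erase x := mem_erase.2 ⟨h2, h1⟩
          rw [← hSA] at h3
          exact (mem_inter.1 h3).1
    · have : r q (insert x S) = x := hrS
      rw [this]; exact hxD
    · have : r q (insert x S) = x := hrS
      rw [this]; exact hx

end Pool.Agent.W482.MR
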