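import Pool.Agent.W482.MR.Steer
import Pool.Agent.H454R3.Tri
set_option autoImplicit false

/-!
# Long walks with resets and the objective functions which force them
-/

namespace Pool.Agent.W482.MR

open Finset Pool.Agent.H454R3

/-! ## blocks -/

/-- A finite set splits into blocks such that, for each of the orders, the first member of the
union of a block and of all later blocks is in this block. -/
lemma exists_blocks {α : Type*} [DecidableEq α] {Q : Type*} [Fintype Q] {m : ℕ}
    (hQ : Fintype.card Q ≤ m) (q₀ : Q) (ρ : Q → α → ℕ) (K : Finset α) :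
    ∃ (b : α → ℕ) (R : ℕ), K.card ≤ m * R ∧ ∀ j < R, ∀ q, ∃ a ∈ K, b a = j ∧
      ∀ y ∈ K, j ≤ b y → ρ q a ≤ ρ q y := by
  classical
  induction hN : K.card using Nat.strong_induction_on generalizing K with
  | _ N ih =>
    rcases K.eq_empty_or_nonempty with rfl | hne
    · refine ⟨fun _ => 0, 0, ?_, by simp⟩
      simp at hN ⊢
      omega
    · have hmin := fun q => exists_min_image K (ρ q) hne
      choose g hgK hg using hmin
      set Y : Finset α := univ.image g with hY
      have hYc : Y.card ≤ m := card_image_le.trans (by rwa [card_univ])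
      have hYK : Y ⊆ K := by
        intro x hx
        obtain ⟨q, _, rfl⟩ := mem_image.1 hx
        exact hgK q
      have hgY : ∀ q, g q ∈ Y := fun q => mem_image_of_mem g (mem_univ q)
      have hYpos : 0 < Y.card := card_pos.2 ⟨g q₀, hgY q₀⟩
      have hcard : (K \ Y).card = K.card - Y.card := card_sdiff_of_subset hYK
      have hle : Y.card ≤ K.card := card_le_card hYK
      obtain ⟨b, R, h1, h2⟩ := ih (K \ Y).card (by omega) (K \ Y) rfl
      refine ⟨fun x => if x ∈ Y then 0 else b x + 1, R + 1, ?_, ?_⟩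
      · have : m * (R + 1) = m * R + m := by ring
        omega
      · intro j hj q
        rcases Nat.eq_zero_or_pos j with rfl | hj0
        · refine ⟨g q, hgK q, ?_, fun y hy _ => hg q y hy⟩
          simp [hgY q]
        · obtain ⟨a, ha, hab, hmin⟩ := h2 (j - 1) (by omega) q
          have ha' := mem_sdiff.1 ha
          refine ⟨a, ha'.1, ?_, ?_⟩
          · simp only [ha'.2, if_false]
            omega
          · intro y hy hjy
            by_cases hyY : y ∈ Y
            · simp only [hyY, if_true] at hjy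
              omega
            · simp only [hyY, if_false] at hjy
              exact hmin y (mem_sdiff.2 ⟨hy, hyY⟩) (by omega)

variable {n : ℕ}

/-- A walk in the cube in which each flipped direction `y k` is taken out of the set `D k` of
directions, while all faster directions are put back. -/
structure Walk (t : Finset (Fin n)) (τ : Fin n → ℕ) (v : ℕ → Fin n → Bool)
    (D : ℕ → Finset (Fin n)) (y : ℕ → Fin n) (L : ℕ) : Prop where
  sub : ∀ k ≤ L, D k ⊆ t
  mem : ∀ k < L, y k ∈ D k
  step : ∀ k < L, v (k + 1) = flip (v k) (y k)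
  next : ∀ k < L, ∀ z, z ∈ D (k + 1) ↔ (z ∈ D k ∧ τ (y k) < τ z) ∨ (z ∈ t ∧ τ z < τ (y k))
  inj : ∀ x ∈ t, ∀ z ∈ t, τ x = τ z → x = z

/-- the orientation -/
def bb (v : ℕ → Fin n → Bool) (D : ℕ → Finset (Fin n)) (k : ℕ) (i : Fin n) : Bool :=
  if i ∈ D k then v k i else !(v k i)

section
variable {t : Finset (Fin n)} {τ : Fin n → ℕ} {v : ℕ → Fin n → Bool}
  {D : ℕ → Finset (Fin n)} {y : ℕ → Fin n} {L : ℕ}

lemma Walk.yt (h : Walk t τ v D y L) {k : ℕ} (hk : k < L) : y k ∈ t :=
  h.sub k hk.le (h.mem k hk)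

lemma Walk.not_mem_next (h : Walk t τ v D y L) {k : ℕ} (hk : k < L) : y k ∉ D (k + 1) := by
  intro h1
  rcases (h.next k hk _).1 h1 with h2 | h2
  · exact lt_irrefl _ h2.2
  · exact lt_irrefl _ h2.2

lemma Walk.bb_step (h : Walk t τ v D y L) {k : ℕ} (hk : k < L) {i : Fin n} (hi : i ∈ t)
    (hle : τ (y k) ≤ τ i) : bb v D (k + 1) i = bb v D k i ∧ (i ∈ D (k + 1) → i ∈ D k) := by
  by_cases hy : i = y k
  · subst hy
    constructor
    · rw [bb, bb, if_neg (h.not_mem_next hk), if_pos (h.mem k hk), h.step k hk, flip_self,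
        Bool.not_not]
    · exact fun h1 => absurd h1 (h.not_mem_next hk)
  · have hlt : τ (y k) < τ i := by
      refine lt_of_le_of_ne hle fun he => hy ?_
      exact (h.inj _ (h.yt hk) _ hi he).symm
    have hD : i ∈ D (k + 1) ↔ i ∈ D k := by
      rw [h.next k hk]
      constructor
      · rintro (h1 | h1)
        · exact h1.1
        · exact absurd h1.2 (by omega)
      · exact fun h1 => Or.inl ⟨h1, hlt⟩
    have hv : v (k + 1) i = v k i := by
      rw [h.step k hk, flip_ne _ hy]
    constructor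
    · rw [bb, bb, hv]
      by_cases h1 : i ∈ D k
      · rw [if_pos h1, if_pos (hD.2 h1)]
      · rw [if_neg h1, if_neg fun h2 => h1 (hD.1 h2)]
    · exact hD.1

lemma Walk.bb_const (h : Walk t τ v D y L) {k k' : ℕ} (hkk : k ≤ k') (hk' : k' ≤ L) {i : Fin n}
    (hi : i ∈ t) (hle : ∀ j, k ≤ j → j < k' → τ (y j) ≤ τ i) :
    bb v D k' i = bb v D k i ∧ (i ∈ D k' → i ∈ D k) := by
  induction k', hkk using Nat.le_induction with
  | base => exact ⟨rfl, id⟩
  | succ k' hkk ih =>
    obtain ⟨h1, h2⟩ := ih (by omega) fun j h3 h4 => hle j h3 (by omega)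
    obtain ⟨h3, h4⟩ := h.bb_step (show k' < L by omega) hi (hle k' hkk (by omega))
    exact ⟨h3.trans h1, fun h5 => h2 (h4 h5)⟩

/-- no repetition -/
lemma Walk.no_repeat (h : Walk t τ v D y L) {k k' : ℕ} (hkk : k ≤ k') (hk' : k' ≤ L) (θ : ℕ)
    (hv : ∀ z ∈ t, θ ≤ τ z → v k z = v k' z) : ∀ j, k ≤ j → j < k' → τ (y j) < θ := by
  by_contra hcon
  push Not at hcon
  obtain ⟨j, hj1, hj2, hj3⟩ := hcon
  obtain ⟨j₀, hj₀, hmax⟩ := exists_max_image (Ico k k') (fun j => τ (y j))
    ⟨j, mem_Ico.2 ⟨hj1, hj2⟩⟩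
  have hj₀' := mem_Ico.1 hj₀
  have hj₀L : j₀ < L := by omega
  have h1 := hmax j (mem_Ico.2 ⟨hj1, hj2⟩)
  have hzt := h.yt hj₀L
  have hall : ∀ j, k ≤ j → j < k' → τ (y j) ≤ τ (y j₀) := fun j h2 h3 =>
    hmax j (mem_Ico.2 ⟨h2, h3⟩)
  have h2 := (h.bb_const hkk hk' hzt hall).1
  have h3 : y j₀ ∈ D k :=
    (h.bb_const hj₀'.1 hj₀L.le hzt fun j h4 h5 => hall j h4 (by omega)).2 (h.mem j₀ hj₀L)
  have h4 : y j₀ ∉ D k' := fun h5 => h.not_mem_next hj₀L
    ((h.bb_const (k := j₀ + 1) (by omega) hk' hzt fun j h6 h7 => hall j (by omega) h7).2 h5)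
  rw [bb, bb, if_neg h4, if_pos h3, hv _ hzt (by omega)] at h2
  cases hb : v k' (y j₀) <;> rw [hb] at h2 <;> exact Bool.noConfusion h2

lemma Walk.consist (h : Walk t τ v D y L) {k k' : ℕ} (hk : k ≤ L) (hk' : k' ≤ L) {i : Fin n}
    (hi : i ∈ t) (hv : ∀ z ∈ t, τ i < τ z → v k z = v k' z) : bb v D k i = bb v D k' i := by
  wlog hkk : k ≤ k' generalizing k k'
  · exact (this hk' hk (fun z hz h1 => (hv z hz h1).symm) (by omega)).symm
  have h1 := h.no_repeat hkk hk' (τ i + 1) fun z hz h1 => hv z hz (by omega)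
  exact (h.bb_const hkk hk' hi fun j h2 h3 => by have := h1 j h2 h3; omega).1.symm

lemma Walk.uniq (h : Walk t τ v D y L) {k k' : ℕ} (hk : k ≤ L) (hk' : k' ≤ L)
    (hv : ∀ z ∈ t, v k z = v k' z) : k = k' := by
  wlog hkk : k ≤ k' generalizing k k'
  · exact (this hk' hk (fun z hz => (hv z hz).symm) (by omega)).symm
  by_contra hne
  have h1 := h.no_repeat hkk hk' 0 (fun z hz _ => hv z hz) k le_rfl (by omega)
  omega

/-- A list for triangular objective functions -/
lemma exists_list (τ' : Fin n → ℕ) (c : Fin n → (Fin n → Bool) → Bool)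
    (hdep : ∀ i u u', (∀ z, τ' i < τ' z → u z = u' z) → c i u = c i u') :
    ∃ l : List (Fin n), l.Nodup ∧ (∀ i, i ∈ l) ∧ Tri c l := by
  have key : ∀ M : Finset (Fin n), ∃ l : List (Fin n), l.Nodup ∧ (∀ i, i ∈ l ↔ i ∈ M) ∧
      Tri c l := by
    intro M
    induction hN : M.card generalizing M with
    | zero =>
      rw [card_eq_zero] at hN
      subst hN
      exact ⟨[], List.nodup_nil, by simp, trivial⟩
    | succ N ih =>
      have hne : M.Nonempty := by rw [← card_pos]; omega
      obtain ⟨z, hz, hmax⟩ := exists_max_image M τ' hne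
      obtain ⟨l, h1, h2, h3⟩ := ih (M.erase z) (by rw [card_erase_of_mem hz]; omega)
      have hmem : ∀ i, i ∈ z :: l ↔ i ∈ M := by
        intro i
        rw [List.mem_cons, h2, mem_erase]
        constructor
        · rintro (rfl | h4)
          · exact hz
          · exact h4.2
        · intro h4
          by_cases h5 : i = z
          · exact Or.inl h5
          · exact Or.inr ⟨h5, h4⟩
      refine ⟨z :: l, ?_, hmem, ?_, h3⟩
      · rw [List.nodup_cons]
        refine ⟨fun h4 => ?_, h1⟩
        exact notMem_erase z M ((h2 z).1 h4)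
      · intro u u' hu
        apply hdep
        intro i hi
        apply hu
        rw [hmem]
        intro h4
        have := hmax i h4
        omega
  obtain ⟨l, h1, h2, h3⟩ := key univ
  exact ⟨l, h1, fun i => (h2 i).2 (mem_univ i), h3⟩

/-- the objective function of a walk -/
theorem Walk.exists_fun (h : Walk t τ v D y L) (S : ℕ → Finset (Fin n))
    (hS : ∀ k ≤ L, S k ∩ t = D k) :
    ∃ f : (Fin n → Bool) → ℕ, Function.Injective f ∧ Combed f ∧
      ∀ k ≤ L, improving f (v k) = S k := by
  classical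
  set P : Fin n → (Fin n → Bool) → ℕ → Prop := fun i u k =>
    k ≤ L ∧ ∀ z ∈ t, (i ∈ t → τ i < τ z) → v k z = u z with hP
  set c : Fin n → (Fin n → Bool) → Bool := fun i u =>
    if hh : ∃ k, P i u k then (if i ∈ S hh.choose then v hh.choose i else !(v hh.choose i))
    else false with hc
  have hdep : ∀ i u u', (∀ z, (if i ∈ t then τ i + 1 else 0) < (if z ∈ t then τ z + 1 else 0) →
      u z = u' z) → c i u = c i u' := by
    intro i u u' hu
    have hPP : P i u = P i u' := by
      funext k
      rw [hP]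
      refine propext (and_congr_right fun _ => forall₂_congr fun z hz => ?_)
      refine forall_congr' fun hiz => ?_
      rw [hu z ?_]
      rw [if_pos hz]
      by_cases hi : i ∈ t
      · rw [if_pos hi]
        have := hiz hi
        omega
      · rw [if_neg hi]
        omega
    rw [hc]
    simp only [hPP]
  have hval : ∀ k ≤ L, ∀ i, c i (v k) = if i ∈ S k then v k i else !(v k i) := by
    intro k hk i
    have hh : ∃ k', P i (v k) k' := ⟨k, hk, fun z _ _ => rfl⟩
    have hch := hh.choose_spec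
    set k' := hh.choose with hk'
    have h1 : c i (v k) = if i ∈ S k' then v k' i else !(v k' i) := by
      rw [hc]
      simp only
      rw [dif_pos hh]
    rw [h1]
    obtain ⟨h2, h3⟩ := hch
    by_cases hi : i ∈ t
    · have h4 := h.consist h2 hk hi fun z hz h5 => h3 z hz fun _ => h5
      have h5 : ∀ j ≤ L, (if i ∈ S j then v j i else !(v j i)) = bb v D j i := by
        intro j hj
        rw [bb]
        have h6 : i ∈ S j ↔ i ∈ D j := by
          rw [← hS j hj, mem_inter]
          exact ⟨fun h7 => ⟨h7, hi⟩, fun h7 => h7.1⟩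
        by_cases h7 : i ∈ S j
        · rw [if_pos h7, if_pos (h6.1 h7)]
        · rw [if_neg h7, if_neg fun h8 => h7 (h6.2 h8)]
      rw [h5 k' h2, h5 k hk, h4]
    · have h4 : k' = k := h.uniq h2 hk fun z hz => h3 z hz fun h5 => absurd h5 hi
      rw [h4]
  obtain ⟨l, hl1, hl2, hl3⟩ := exists_list (fun i => if i ∈ t then τ i + 1 else 0) c hdep
  obtain ⟨f, hf1, hf2, hf3⟩ := exists_tri c l hl1 hl2 hl3
  refine ⟨f, hf1, hf2, fun k hk => ?_⟩
  ext i
  rw [hf3, hval k hk i]
  by_cases hi : i ∈ S k
  · simp [hi]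
  · simp [hi]

/-- the number of steps -/
theorem Walk.long (h : Walk t τ v D y L) (hDL : D L = ∅) (b : Fin n → ℕ) (R : ℕ)
    (hτ : ∀ x ∈ t, ∀ z ∈ t, b x < b z → τ x < τ z)
    (hne : ∀ j < R, ∃ a ∈ t, b a = j)
    (hmin : ∀ j < R, ∀ k < L, (∀ z ∈ t, b z = j → z ∈ D k) → j ≤ b (y k) → b (y k) = j)
    (j : ℕ) (hj : j ≤ R) (k k' : ℕ) (hkk : k ≤ k') (hk' : k' ≤ L)
    (hD : ∀ z ∈ t, b z < j → z ∈ D k) (hend : k' = L ∨ j ≤ b (y k')) :
    2 ^ j ≤ k' - k + 1 := by
  induction j generalizing k k' with
  | zero => simp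
  | succ j ih =>
    have hex : ∃ k1, k ≤ k1 ∧ (k1 = L ∨ j ≤ b (y k1)) := by
      refine ⟨k', hkk, ?_⟩
      rcases hend with h1 | h1
      · exact Or.inl h1
      · exact Or.inr (by omega)
    classical
    obtain ⟨h1, h2⟩ := Nat.find_spec hex
    have h3 : ∀ i < Nat.find hex, ¬ (k ≤ i ∧ (i = L ∨ j ≤ b (y i))) := fun i hi =>
      Nat.find_min hex hi
    have h4 : Nat.find hex ≤ k' := by
      apply Nat.find_min' hex
      refine ⟨hkk, ?_⟩
      rcases hend with h1 | h1
      · exact Or.inl h1
      · exact Or.inr (by omega)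
    set k1 := Nat.find hex with hk1
    -- block `j` stays
    have h5 : ∀ i, k ≤ i → i ≤ k1 → ∀ z ∈ t, b z = j → z ∈ D i := by
      intro i hki
      induction i, hki using Nat.le_induction with
      | base => exact fun _ z hz hb => hD z hz (by omega)
      | succ i hki ih' =>
        intro hi z hz hb
        have h6 := ih' (by omega) z hz hb
        have h7 := h3 i (by omega)
        have h8 : i < L := by omega
        rw [h.next i h8]
        left
        refine ⟨h6, hτ _ (h.yt h8) z hz ?_⟩
        by_contra h9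
        exact h7 ⟨hki, Or.inr (by omega)⟩
    obtain ⟨a, hat, hab⟩ := hne j (by omega)
    have h6 : k1 ≠ L := by
      intro h7
      have := h5 k1 h1 le_rfl a hat hab
      rw [h7, hDL] at this
      simp at this
    have h7 : k1 < L := by omega
    have h8 : j ≤ b (y k1) := by
      rcases h2 with h2 | h2
      · exact absurd h2 h6
      · exact h2
    have h9 : b (y k1) = j := hmin j (by omega) k1 h7 (h5 k1 h1 le_rfl) h8
    have h10 : k1 ≠ k' := by
      intro h11
      rcases hend with h12 | h12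
      · exact h6 (h11.trans h12)
      · rw [← h11, h9] at h12
        omega
    have h11 := ih (by omega) k k1 h1 h7.le (fun z hz hb => hD z hz (by omega)) (Or.inr h8)
    have h12 := ih (by omega) (k1 + 1) k' (by omega) hk' (fun z hz hb => by
      rw [h.next k1 h7]
      right
      exact ⟨hz, hτ z hz _ (h.yt h7) (by omega)⟩) (by
      rcases hend with h13 | h13
      · exact Or.inl h13
      · exact Or.inr (by omega))
    rw [pow_succ]
    omega

end

end Pool.Agent.W482.MR
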